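import Mathlib
import Pool.Agent.Run7.h51.NetsDefs
import Pool.Agent.Run7.h51.NetsGeom

open scoped ENNReal

namespace Pool.Agent.Results.MP_1d1573_an.NetsLinfSum

/-- For every net `N` in a real normed space `X` (of any density character, complete or not) the
space `Lip₀(N)` is linearly isomorphic to the `ℓ^∞`-sum of countably many copies of itself. -/
theorem result (X : Type*) [NormedAddCommGroup X] [NormedSpace ℝ X] (N : Set X)
    (hN : Run7.h51.IsNet N) (o : N) :
    Nonempty (Run7.h51.Lip0 N o ≃L[ℝ] lp (fun _ : ℕ => Run7.h51.Lip0 N o) ∞) :=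
  Run7.h51.lip0_net_equiv N hN o

end Pool.Agent.Results.MP_1d1573_an.NetsLinfSum
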